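import Pool.Agent.Lib.MP_8fffab_lc_CP.Defs
import Pool.Agent.Lib.MP_8fffab_lc_RG.Circ

/-!
# From refutations to monotone real circuits
-/

open Finset

namespace SplitLines

open RealMono (Gate Circuit Mono₂ bit cnt cnt_succ bit_true bit_false one_le_bit)

/-- The values of the gates with numbers at most `i` depend only on these gates. -/
theorem mval_congr {ι : Type} {C C' : Circuit ι} {β : ℕ → Prop} {x : ι → Prop} {s : ℕ}
    (h : ∀ i < s, C i = C' i) : ∀ i < s, C.mval β x i = C'.mval β x i := by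
  intro i
  induction i using Nat.strong_induction_on with
  | _ i ih =>
    intro hi
    have hC := h i hi
    have ih' : ∀ a : Fin i, C.mval β x a = C'.mval β x a := fun a =>
      ih a a.isLt (a.isLt.trans hi)
    rw [Circuit.mval, Circuit.mval, hC]
    cases C' i with
    | input v => rfl
    | const c => rfl
    | mono g hg a b => simp only [ih' a, ih' b]
    | max S => simp only [ih']
    | other r w g => rfl

section

variable {k n p : ℕ} (h : ℕ)

/-- The valid pairs `X`, `A`. -/
abbrev Pos (k n h : ℕ) : Type := {q : Set (Finset (Fin n)) × (Fin k → Finset (Fin n)) //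
  (∀ B ∈ q.1, B.card = h) ∧ (∀ j, q.2 j ∈ q.1) ∧ ∀ v, ∃ j, v ∈ q.2 j}

/-- The valid functions `f`. -/
abbrev Neg (n p : ℕ) : Type := {f : Fin n → ZMod p // ∑ v, f v ≠ 0}

theorem valid (q : Pos k n h) (f : Neg n p) : Valid h q.1.1 q.1.2 f.1 :=
  ⟨q.2.1, q.2.2.1, q.2.2.2, f.2⟩

/-- The threshold of the line `L` for the predicate `Q` on the valid pairs. -/
noncomputable def up (L : Line k n p) (Q : Pos k n h → Prop) : ℝ :=
  sSup ({sInf (Set.range fun f : Neg n p => L.G f.1)} ∪ {r | ∃ q, Q q ∧ r = - L.F q.1.1 q.1.2})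

variable {h}

theorem bddAbove_up (L : Line k n p) (Q : Pos k n h → Prop) :
    BddAbove ({sInf (Set.range fun f : Neg n p => L.G f.1)} ∪
      {r | ∃ q, Q q ∧ r = - L.F q.1.1 q.1.2}) := by
  apply Set.Finite.bddAbove
  apply Set.Finite.union (Set.finite_singleton _)
  apply (Set.finite_range fun q : Pos k n h => - L.F q.1.1 q.1.2).subset
  rintro r ⟨q, -, rfl⟩
  exact ⟨q, rfl⟩

theorem le_up {L : Line k n p} {Q : Pos k n h → Prop} {q : Pos k n h} (hq : Q q) :
    - L.F q.1.1 q.1.2 ≤ up h L Q :=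
  le_csSup (bddAbove_up L Q) (Or.inr ⟨q, hq, rfl⟩)

theorem up_le [NeZero p] {L : Line k n p} {Q : Pos k n h → Prop} {f : Neg n p}
    (hf : ∀ q, Q q → - L.F q.1.1 q.1.2 ≤ L.G f.1) : up h L Q ≤ L.G f.1 := by
  unfold up
  apply csSup_le
  · exact ⟨_, Or.inl rfl⟩
  intro r hr
  rcases hr with hr | ⟨q, hq, rfl⟩
  · rw [Set.mem_singleton_iff.1 hr]
    exact csInf_le (Set.finite_range _).bddBelow ⟨f, rfl⟩
  · exact hf q hq

theorem up_mono {L : Line k n p} {Q Q' : Pos k n h → Prop} (hQ : ∀ q, Q q → Q' q) :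
    up h L Q ≤ up h L Q' := by
  unfold up
  apply csSup_le_csSup (bddAbove_up L Q')
  · exact ⟨_, Or.inl rfl⟩
  intro r hr
  rcases hr with hr | ⟨q, hq, rfl⟩
  · exact Or.inl hr
  · exact Or.inr ⟨q, hQ q hq, rfl⟩

/-- The family of the sets of size `h` with sum zero. -/
def fam (h : ℕ) (f : Fin n → ZMod p) : Set (Finset (Fin n)) :=
  {B | ∑ v ∈ B, f v = 0 ∧ B.card = h}

/-- Gate number `i` of the circuit `C` interpolates the line `L`. -/
def Interp (h : ℕ) (C : Circuit (Finset (Fin n))) (L : Line k n p) (i : ℕ) : Prop :=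
  (∀ q : Pos k n h, - L.F q.1.1 q.1.2 ≤ C.mval (fun _ => False) (fun B => B ∈ q.1.1) i) ∧
    ∀ f : Neg n p, C.mval (fun _ => False) (fun B => B ∈ fam h f.1) i ≤ L.G f.1

theorem interp_congr {C C' : Circuit (Finset (Fin n))} {s : ℕ} (hC : ∀ i < s, C i = C' i)
    {L : Line k n p} {i : ℕ} (hi : i < s) (hL : Interp h C L i) : Interp h C' L i := by
  have h1 : ∀ x : Finset (Fin n) → Prop,
      C.mval (fun _ => False) x i = C'.mval (fun _ => False) x i := fun x =>
    mval_congr hC i hi
  refine ⟨fun q => ?_, fun f => ?_⟩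
  · have := hL.1 q
    rw [h1] at this
    exact this
  · have := hL.2 f
    rw [h1] at this
    exact this

theorem cnt_update {C : Circuit (Finset (Fin n))} {s : ℕ} (g : Gate (Finset (Fin n)) s) :
    cnt (Function.update C s g) s = cnt C s := by
  unfold cnt
  congr 1
  apply filter_congr
  intro i hi
  rw [mem_range] at hi
  rw [Function.update_of_ne hi.ne]

theorem update_lt {C : Circuit (Finset (Fin n))} {s : ℕ} (g : Gate (Finset (Fin n)) s) :
    ∀ i < s, C i = Function.update C s g i := fun i hi => by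
  rw [Function.update_of_ne hi.ne]

/-- The gate of an inference. -/
noncomputable def gInf (L L₁ L₂ : Line k n p) (a b : ℝ) : ℝ :=
  up h L fun q => - L₁.F q.1.1 q.1.2 ≤ a ∧ - L₂.F q.1.1 q.1.2 ≤ b

theorem gInf_mono (L L₁ L₂ : Line k n p) : Mono₂ (gInf (h := h) L L₁ L₂) :=
  fun _ _ _ _ hx hy => up_mono fun _ hq => ⟨hq.1.trans hx, hq.2.trans hy⟩

/-- The gate of an axiom. -/
noncomputable def gAx (L : Line k n p) (B : Finset (Fin n)) (a _ : ℝ) : ℝ :=
  up h L fun q => 1 ≤ a ∨ B ∉ q.1.1

theorem gAx_mono (L : Line k n p) (B : Finset (Fin n)) : Mono₂ (gAx (h := h) L B) :=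
  fun _ _ _ _ hx _ => up_mono fun _ hq => hq.imp (fun h' => h'.trans hx) id

theorem exists_circuit [NeZero p] {l : List (Line k n p)} (hl : Derivation h l) :
    ∃ (C : Circuit (Finset (Fin n))) (s : ℕ), cnt C s ≤ l.length ∧
      ∀ L ∈ l, ∃ i < s, Interp h C L i := by
  classical
  induction hl with
  | nil => exact ⟨fun _ => .const 0, 0, by simp [cnt], by simp⟩
  | @ax L l _ hL ih =>
    obtain ⟨C, s, hs, hC⟩ := ih
    obtain ⟨B, hB, hL⟩ := hL
    obtain ⟨C₁, hC₁⟩ : ∃ C₁ : Circuit (Finset (Fin n)), C₁ = Function.update C s (.input B) :=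
      ⟨_, rfl⟩
    obtain ⟨C₂, hC₂⟩ : ∃ C₂ : Circuit (Finset (Fin n)), C₂ = Function.update C₁ (s + 1)
      (.mono (gAx (h := h) L B) (gAx_mono L B) (Fin.last s) (Fin.last s)) := ⟨_, rfl⟩
    have h1 : C₁ s = .input B := by rw [hC₁, Function.update_self]
    have h2 : C₂ (s + 1) = .mono (gAx (h := h) L B) (gAx_mono L B) (Fin.last s) (Fin.last s) := by
      rw [hC₂, Function.update_self]
    have h12 : ∀ i < s + 1, C₁ i = C₂ i := by rw [hC₂]; exact update_lt _
    have h01 : ∀ i < s, C i = C₁ i := by rw [hC₁]; exact update_lt _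
    have hval1 : ∀ x : Finset (Fin n) → Prop, C₁.mval (fun _ => False) x s = bit (x B) := by
      intro x
      rw [Circuit.mval, h1]
    have hval2 : ∀ x : Finset (Fin n) → Prop, C₂.mval (fun _ => False) x (s + 1) =
        gAx (h := h) L B (bit (x B)) (bit (x B)) := by
      intro x
      rw [Circuit.mval, h2]
      simp only [Fin.val_last]
      rw [← mval_congr h12 s (Nat.lt_succ_self s), hval1]
    refine ⟨C₂, s + 2, ?_, ?_⟩
    · rw [cnt_succ, h2, cnt_succ, ← h12 s (Nat.lt_succ_self s), h1]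
      have h3 : cnt C₂ s = cnt C s := by
        have h4 : cnt C₂ s = cnt C₁ s := by
          unfold cnt
          congr 1
          apply filter_congr
          intro i hi
          rw [mem_range] at hi
          rw [h12 i (by omega)]
        rw [h4, hC₁, cnt_update]
      rw [h3]
      simp only [Gate.isMono, List.length_cons]
      simp
      omega
    · intro L' hL'
      rw [List.mem_cons] at hL'
      rcases hL' with rfl | hL'
      · refine ⟨s + 1, by omega, fun q => ?_, fun f => ?_⟩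
        · rw [hval2]
          apply le_up
          by_cases hq : B ∈ q.1.1
          · left
            exact one_le_bit.2 hq
          · exact Or.inr hq
        · rw [hval2]
          apply up_le
          intro q hq
          have h3 := hL q.1.1 q.1.2 f.1 (valid h q f) (by
            intro hBq
            rcases hq with hq | hq
            · exact (one_le_bit.1 hq).1
            · exact absurd hBq hq)
          unfold Line.Holds at h3
          linarith
      · obtain ⟨i, hi, hiL⟩ := hC L' hL'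
        refine ⟨i, by omega, interp_congr (s := s) (fun j hj => ?_) hi hiL⟩
        rw [h01 j hj, h12 j (by omega)]
  | @infer L L₁ L₂ l _ hL₁ hL₂ hL ih =>
    obtain ⟨C, s, hs, hC⟩ := ih
    obtain ⟨i₁, hi₁, h₁⟩ := hC L₁ hL₁
    obtain ⟨i₂, hi₂, h₂⟩ := hC L₂ hL₂
    obtain ⟨C₁, hC₁⟩ : ∃ C₁ : Circuit (Finset (Fin n)), C₁ = Function.update C s
      (.mono (gInf (h := h) L L₁ L₂) (gInf_mono L L₁ L₂) ⟨i₁, hi₁⟩ ⟨i₂, hi₂⟩) := ⟨_, rfl⟩
    have h1 : C₁ s = .mono (gInf (h := h) L L₁ L₂) (gInf_mono L L₁ L₂) ⟨i₁, hi₁⟩ ⟨i₂, hi₂⟩ := by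
      rw [hC₁, Function.update_self]
    have h01 : ∀ i < s, C i = C₁ i := by rw [hC₁]; exact update_lt _
    have hval1 : ∀ x : Finset (Fin n) → Prop, C₁.mval (fun _ => False) x s =
        gInf (h := h) L L₁ L₂ (C₁.mval (fun _ => False) x i₁) (C₁.mval (fun _ => False) x i₂) := by
      intro x
      rw [Circuit.mval, h1]
    have h₁' := interp_congr h01 hi₁ h₁
    have h₂' := interp_congr h01 hi₂ h₂
    refine ⟨C₁, s + 1, ?_, ?_⟩
    · rw [cnt_succ, h1, hC₁, cnt_update]
      simp only [Gate.isMono, List.length_cons]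
      simp
      omega
    · intro L' hL'
      rw [List.mem_cons] at hL'
      rcases hL' with rfl | hL'
      · refine ⟨s, by omega, fun q => ?_, fun f => ?_⟩
        · rw [hval1]
          exact le_up ⟨h₁'.1 q, h₂'.1 q⟩
        · rw [hval1]
          apply up_le
          rintro q ⟨hq₁, hq₂⟩
          have h3 := hq₁.trans (h₁'.2 f)
          have h4 := hq₂.trans (h₂'.2 f)
          have h5 := hL q.1.1 q.1.2 f.1 (valid h q f) (by unfold Line.Holds; linarith)
            (by unfold Line.Holds; linarith)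
          unfold Line.Holds at h5
          linarith
      · obtain ⟨i, hi, hiL⟩ := hC L' hL'
        exact ⟨i, by omega, interp_congr h01 hi hiL⟩

/-- A refutation with `N` lines yields a monotone real circuit with `N + 1` nondecreasing functions
of two gates which separates. -/
theorem exists_separator [NeZero p] {l : List (Line k n p)} (hl : Derivation h l)
    {L : Line k n p} (hL : L ∈ l) (hL' : ∀ X A f, Valid h X A f → ¬ L.Holds X A f)
    (q₀ : Pos k n h) :
    ∃ (C : Circuit (Finset (Fin n))) (o : ℕ), C.numMono o ≤ l.length + 1 ∧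
      (∀ q : Pos k n h, 1 ≤ C.mval (fun _ => False) (fun B => B ∈ q.1.1) o) ∧
      ∀ f : Neg n p, ¬ 1 ≤ C.mval (fun _ => False) (fun B => B ∈ fam h f.1) o := by
  classical
  obtain ⟨C, s, hs, hC⟩ := exists_circuit hl
  obtain ⟨i, hi, h1, h2⟩ := hC L hL
  obtain ⟨τ, hτ⟩ : ∃ τ : ℝ, τ = sInf (Set.range fun q : Pos k n h => - L.F q.1.1 q.1.2) :=
    ⟨_, rfl⟩
  have hmono : Mono₂ fun a _ => bit (τ ≤ a) := fun _ _ _ _ hx _ =>
    RealMono.bit_mono fun h' => h'.trans hx
  obtain ⟨C₁, hC₁⟩ : ∃ C₁ : Circuit (Finset (Fin n)), C₁ = Function.update C s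
    (.mono (fun a _ => bit (τ ≤ a)) hmono ⟨i, hi⟩ ⟨i, hi⟩) := ⟨_, rfl⟩
  have h3 : C₁ s = .mono (fun a _ => bit (τ ≤ a)) hmono ⟨i, hi⟩ ⟨i, hi⟩ := by
    rw [hC₁, Function.update_self]
  have h01 : ∀ i < s, C i = C₁ i := by rw [hC₁]; exact update_lt _
  have hval1 : ∀ x : Finset (Fin n) → Prop, C₁.mval (fun _ => False) x s =
      bit (τ ≤ C.mval (fun _ => False) x i) := by
    intro x
    rw [Circuit.mval, h3]
    simp only
    rw [← mval_congr h01 i hi]
  refine ⟨C₁, s, ?_, fun q => ?_, fun f => ?_⟩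
  · change cnt C₁ (s + 1) ≤ _
    rw [cnt_succ, h3, hC₁, cnt_update]
    simp only [Gate.isMono]
    simp
    omega
  · rw [hval1, one_le_bit]
    refine le_trans ?_ (h1 q)
    rw [hτ]
    exact csInf_le (Set.finite_range _).bddBelow ⟨q, rfl⟩
  · rw [hval1, one_le_bit, not_le]
    refine (h2 f).trans_lt ?_
    have h4 : τ ∈ Set.range fun q : Pos k n h => - L.F q.1.1 q.1.2 := by
      rw [hτ]
      have : Nonempty (Pos k n h) := ⟨q₀⟩
      exact (Set.range_nonempty _).csInf_mem (Set.finite_range _)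
    obtain ⟨q, hq⟩ := h4
    rw [← hq]
    have h5 := hL' q.1.1 q.1.2 f.1 (valid h q f)
    unfold Line.Holds at h5
    dsimp only
    linarith

end

end SplitLines
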