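import Mathlib

/-!
# Split-line refutations for Set Cover: definitions

`X` is a family of subsets of size `h` of `Fin n`, `n = k * h`; the `k` sets `A j` belong to `X` and
cover `Fin n`; and `f : Fin n → ZMod p` is a certificate that this is impossible: the sum of `f`
over every member of `X` is zero, the sum over `Fin n` is not. Refutations of this contradiction
have lines of the form `0 ≤ F X A + G f` with arbitrary real functions `F` and `G`.
-/

open Finset

namespace SplitLines

/-- The members of the family `X` have size `h`, the sets `A j` belong to `X` and cover `Fin n`,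
and the sum of `f` over `Fin n` is not zero. -/
def Valid {k n p : ℕ} (h : ℕ) (X : Set (Finset (Fin n))) (A : Fin k → Finset (Fin n))
    (f : Fin n → ZMod p) : Prop :=
  (∀ B ∈ X, B.card = h) ∧ (∀ j, A j ∈ X) ∧ (∀ v, ∃ j, v ∈ A j) ∧ ∑ v, f v ≠ 0

/-- A line, which says that `0 ≤ F X A + G f`. -/
structure Line (k n p : ℕ) where
  F : Set (Finset (Fin n)) → (Fin k → Finset (Fin n)) → ℝ
  G : (Fin n → ZMod p) → ℝ

def Line.Holds {k n p : ℕ} (L : Line k n p) (X : Set (Finset (Fin n)))
    (A : Fin k → Finset (Fin n)) (f : Fin n → ZMod p) : Prop :=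
  0 ≤ L.F X A + L.G f

/-- For some set `B` of size `h` the line follows from the fact that the sum of `f` over `B` is
zero if `B` belongs to `X`. -/
def Line.IsAxiom {k n p : ℕ} (h : ℕ) (L : Line k n p) : Prop :=
  ∃ B : Finset (Fin n), B.card = h ∧
    ∀ X A f, Valid h X A f → (B ∈ X → ∑ v ∈ B, f v = 0) → L.Holds X A f

/-- The line follows from the lines `L₁` and `L₂`. -/
def Line.Follows {k n p : ℕ} (h : ℕ) (L L₁ L₂ : Line k n p) : Prop :=
  ∀ X A f, Valid h X A f → L₁.Holds X A f → L₂.Holds X A f → L.Holds X A f

/-- Derivations, last line first. -/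
inductive Derivation (h : ℕ) {k n p : ℕ} : List (Line k n p) → Prop
  | nil : Derivation h []
  | ax {L : Line k n p} {l : List (Line k n p)} : Derivation h l → L.IsAxiom h →
      Derivation h (L :: l)
  | infer {L L₁ L₂ : Line k n p} {l : List (Line k n p)} : Derivation h l → L₁ ∈ l → L₂ ∈ l →
      L.Follows h L₁ L₂ → Derivation h (L :: l)

/-- There is a derivation with at most `N` lines, one of which never holds. -/
def HasRefutation (k h p N : ℕ) : Prop :=
  ∃ l : List (Line k (k * h) p), Derivation h l ∧ l.length ≤ N ∧
    ∃ L ∈ l, ∀ X A f, Valid h X A f → ¬ L.Holds X A f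

end SplitLines
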