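import Pool.Agent.Lib.MP_8fffab_lc_CP.Circ
import Pool.Agent.Lib.MP_8fffab_lc_RG.Main

/-!
# The lower bound for refutations
-/

open Finset FewNeg

namespace SplitLines

open RealMono (Circuit core_real)
open SetCoverMono (classes zeros col card_col card_col_perm)

/-- The input family restricted to the sets of size `h`. -/
def restr (h : ℕ) {n : ℕ} (x : Finset (Fin n) → Prop) (B : Finset (Fin n)) : Prop :=
  x B ∧ B.card = h

theorem isLit_restr (n h : ℕ) : SetCoverMono.IsLit n h (restr h (n := n)) := by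
  intro B
  by_cases hB : B.card = h
  · exact Or.inr (Or.inr ⟨B, hB, fun x => ⟨fun h' => h'.1, fun h' => ⟨h', hB⟩⟩⟩)
  · exact Or.inr (Or.inl fun x hx => hB hx.2)

/-- The yes-instance of the permutation `π`. -/
theorem exists_pos (k h : ℕ) (π : Equiv.Perm (Fin (k * h))) :
    ∃ q : Pos k (k * h) h, (fun B => B ∈ q.1.1) = restr h (classes (col k h ∘ π)) := by
  classical
  refine ⟨⟨({B | restr h (classes (col k h ∘ π)) B}, fun j => univ.filter fun v =>
    (col k h ∘ π) v = j), fun B hB => hB.2, fun j => ?_, fun v => ?_⟩, rfl⟩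
  · exact ⟨⟨j, fun v => by simp⟩, card_col_perm k h π j⟩
  · exact ⟨(col k h ∘ π) v, by simp⟩

theorem lower {k : ℕ} (hk : 2 ≤ k) {ε : ℝ} (hε : 0 < ε) : ∃ p : ℕ, p.Prime ∧ ∃ h₀ : ℕ, ∀ h ≥ h₀,
    ∀ N, HasRefutation k h p N → (2 : ℝ) ^ ((1 - ε) * (k * h : ℕ)) ≤ N := by
  classical
  wlog hε1 : ε ≤ 1 with hwlog
  · obtain ⟨p, hp, h₀, h1⟩ := hwlog hk (zero_lt_one' ℝ) le_rfl
    refine ⟨p, hp, h₀, fun h hh N hN => ?_⟩
    refine le_trans ?_ (h1 h hh N hN)
    apply Real.rpow_le_rpow_of_exponent_le (by norm_num)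
    apply mul_le_mul_of_nonneg_right _ (Nat.cast_nonneg _)
    linarith
  obtain ⟨p, hp, u₀, hu₀, hcore⟩ := core_real hk (half_pos hε)
  obtain ⟨h₁, hh₁⟩ := exists_nat_ge (4 / ε)
  refine ⟨p, hp.out, u₀ + h₁ + 4, fun h hh N hN => ?_⟩
  haveI : NeZero p := ⟨hp.out.ne_zero⟩
  obtain ⟨l, hl, hlN, L, hL, hL'⟩ := hN
  obtain ⟨q₀, -⟩ := exists_pos k h 1
  obtain ⟨C, o, hC, hyes, hno⟩ := exists_separator hl hL hL' q₀
  have h1 := hcore h (by omega) (col k h) (card_col k h) _ _ (isLit_restr (k * h) h) C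
    (fun _ => False) o
  have hkh : 0 < k * h := Nat.mul_pos (by omega) (by omega)
  have hΩ : Nonempty {f : Fin (k * h) → ZMod p // ∑ v, f v ≠ 0} := by
    rw [← Fintype.card_pos_iff]
    have h1 := SetCoverMono.card_nonzero (p := p) hkh
    have h2 : 0 < p ^ (k * h) := pow_pos hp.out.pos _
    omega
  have h2 : avg (fun π : Equiv.Perm (Fin (k * h)) =>
      ind (1 ≤ C.mval (fun _ => False) (restr h (classes (col k h ∘ π))) o)) = 1 := by
    have h3 : ∀ π : Equiv.Perm (Fin (k * h)),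
        ind (1 ≤ C.mval (fun _ => False) (restr h (classes (col k h ∘ π))) o) = 1 := by
      intro π
      apply ind_true
      obtain ⟨q, hq⟩ := exists_pos k h π
      rw [← hq]
      exact hyes q
    simp only [h3]
    exact avg_const 1
  have h3 : avg (fun f : {f : Fin (k * h) → ZMod p // ∑ v, f v ≠ 0} =>
      ind (1 ≤ C.mval (fun _ => False) (restr h (zeros f.1)) o)) = 0 := by
    have h4 : ∀ f : {f : Fin (k * h) → ZMod p // ∑ v, f v ≠ 0},
        ind (1 ≤ C.mval (fun _ => False) (restr h (zeros f.1)) o) = 0 := by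
      intro f
      exact ind_false (hno f)
    simp only [h4]
    exact avg_const 0
  rw [h2, h3, zero_add] at h1
  -- numerics
  have two_pos : (0 : ℝ) < 2 := by norm_num
  have hN1 : (C.numMono o : ℝ) ≤ N + 1 := by
    have : C.numMono o ≤ N + 1 := by omega
    exact_mod_cast this
  have hhr : 4 ≤ ε * h := by
    have h5 : (h₁ : ℝ) ≤ h := by
      have : h₁ ≤ h := by omega
      exact_mod_cast this
    have h6 : 4 / ε ≤ h := hh₁.trans h5
    rw [div_le_iff₀ hε] at h6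
    linarith
  have hh4 : (4 : ℝ) ≤ h := by
    have : 4 ≤ h := by omega
    exact_mod_cast this
  have hk1 : (1 : ℝ) ≤ k := by
    have : 1 ≤ k := by omega
    exact_mod_cast this
  have hsmall : (2 : ℝ) ^ (-((h : ℝ) / 4)) ≤ 1 / 2 := by
    calc (2 : ℝ) ^ (-((h : ℝ) / 4)) ≤ 2 ^ (-1 : ℝ) :=
          Real.rpow_le_rpow_of_exponent_le (by norm_num) (by linarith)
      _ = 1 / 2 := by rw [Real.rpow_neg_one]; norm_num
  obtain ⟨E, hE⟩ : ∃ E : ℝ, E = (k * h : ℕ) := ⟨_, rfl⟩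
  rw [← hE] at h1 ⊢
  have hE0 : (h : ℝ) ≤ E := by
    rw [hE]; push_cast
    nlinarith
  have hεE : 4 ≤ ε * E := hhr.trans (mul_le_mul_of_nonneg_left hE0 hε.le)
  have h5 : 1 / 2 ≤ ((N : ℝ) + 1) * 2 ^ (-((1 - ε / 2) * E)) := by
    have h6 : (C.numMono o : ℝ) * 2 ^ (-((1 - ε / 2) * E)) ≤
        ((N : ℝ) + 1) * 2 ^ (-((1 - ε / 2) * E)) :=
      mul_le_mul_of_nonneg_right hN1 (Real.rpow_nonneg two_pos.le _)
    linarith
  have h6 : (2 : ℝ) ^ ((1 - ε / 2) * E - 1) ≤ N + 1 := by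
    have h7 : (0 : ℝ) < 2 ^ ((1 - ε / 2) * E) := Real.rpow_pos_of_pos two_pos _
    rw [Real.rpow_neg two_pos.le] at h5
    rw [Real.rpow_sub two_pos, Real.rpow_one, div_le_iff₀ two_pos]
    have h8 := mul_le_mul_of_nonneg_right h5 h7.le
    rw [mul_assoc, inv_mul_cancel₀ h7.ne', mul_one] at h8
    linarith
  have h7 : (1 : ℝ) ≤ 2 ^ ((1 - ε) * E) := by
    apply Real.one_le_rpow (by norm_num)
    apply mul_nonneg (by linarith)
    rw [hE]; exact Nat.cast_nonneg _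
  have h8 : (2 : ℝ) ^ ((1 - ε) * E) * 2 ≤ 2 ^ ((1 - ε / 2) * E - 1) := by
    calc (2 : ℝ) ^ ((1 - ε) * E) * 2 = 2 ^ ((1 - ε) * E + 1) := by
          rw [Real.rpow_add two_pos, Real.rpow_one]
      _ ≤ _ := by
          apply Real.rpow_le_rpow_of_exponent_le (by norm_num)
          nlinarith
  linarith

theorem lower_b (b : ℝ) (hb0 : 0 ≤ b) (hb : b < 2) (c : ℕ) : ∃ k₀ : ℕ, ∀ k ≥ k₀,
    ∃ p : ℕ, p.Prime ∧ ∃ h₀ : ℕ, ∀ h ≥ h₀, ∀ N, HasRefutation k h p N →
      b ^ (k * h) * (((k * h).choose h : ℝ) * (k * h : ℕ)) ^ c ≤ N := by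
  obtain ⟨η, hη, k₀, hk₀, hnum⟩ := SetCoverMono.num_bound b hb hb0 c
  refine ⟨k₀, fun k hk => ?_⟩
  obtain ⟨n₁, hn₁⟩ := hnum k hk
  have hk2 : 2 ≤ k := hk₀.trans hk
  obtain ⟨p, hp, h₀, hmain⟩ := lower hk2 hη
  refine ⟨p, hp, h₀ + n₁, fun h hh N hN => ?_⟩
  have hkpos : 0 < k := by omega
  have h1 : n₁ ≤ k * h := by nlinarith
  have h2 := hn₁ (k * h) h1
  have h3 : k * h / k = h := Nat.mul_div_cancel_left h hkpos
  rw [h3] at h2
  refine h2.trans ?_
  have h4 := hmain h (by omega) N hN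
  push_cast at h4 ⊢
  exact h4

end SplitLines
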