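import Pool.Agent.Lib.MP_8fffab_lc_CP.Defs

/-!
# A refutation with about `2 ^ n` lines
-/

open Finset

namespace SplitLines

variable {k n p h : ℕ}

/-- The line which says that if `P X A` holds then the sum of `f` over `S` is zero. -/
noncomputable def cl (P : Set (Finset (Fin n)) → (Fin k → Finset (Fin n)) → Prop)
    (S : Finset (Fin n)) : Line k n p := by
  classical
  exact ⟨fun X A => if P X A then 0 else 1, fun f => if ∑ v ∈ S, f v = 0 then 0 else -1⟩

theorem cl_holds {P : Set (Finset (Fin n)) → (Fin k → Finset (Fin n)) → Prop}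
    {S : Finset (Fin n)} {X : Set (Finset (Fin n))} {A : Fin k → Finset (Fin n)}
    {f : Fin n → ZMod p} : (cl P S : Line k n p).Holds X A f ↔ (P X A → ∑ v ∈ S, f v = 0) := by
  classical
  unfold Line.Holds cl
  by_cases h1 : P X A
  · by_cases h2 : ∑ v ∈ S, f v = 0
    · simp [h1, h2]
    · simp only [h1, h2, if_true, if_false, true_imp_iff, iff_false]
      norm_num
  · by_cases h2 : ∑ v ∈ S, f v = 0
    · simp [h1, h2]
    · simp [h1, h2]

/-- The set `S` is a union of some of the sets `A j`. -/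
def IsUnion (A : Fin k → Finset (Fin n)) (S : Finset (Fin n)) : Prop :=
  ∃ J : Finset (Fin k), ∀ v, v ∈ S ↔ ∃ j ∈ J, v ∈ A j

/-- The line for the set `S`. -/
noncomputable def lT (S : Finset (Fin n)) : Line k n p := cl (fun _ A => IsUnion A S) S

/-- The axiom of the set `B`. -/
noncomputable def lM (B : Finset (Fin n)) : Line k n p := cl (fun X _ => B ∈ X) B

/-- The line for `S` restricted to the case that `v` lies in a set `A j` from the list. -/
noncomputable def lR (S : Finset (Fin n)) (v : Fin n) (l : List (Finset (Fin n))) : Line k n p :=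
  cl (fun _ A => IsUnion A S ∧ ∃ B ∈ l, v ∈ B ∧ ∃ j, A j = B) S

theorem exists_base (Bs : List (Finset (Fin n))) (hBs : ∀ B ∈ Bs, B.card = h) :
    ∃ l : List (Line k n p), Derivation h l ∧ l.length ≤ Bs.length ∧ ∀ B ∈ Bs, lM B ∈ l := by
  induction Bs with
  | nil => exact ⟨[], .nil, le_rfl, by simp⟩
  | cons B Bs ih =>
    obtain ⟨l, hl, hlen, hmem⟩ := ih fun B hB => hBs B (List.mem_cons_of_mem _ hB)
    refine ⟨lM B :: l, hl.ax ⟨B, hBs B List.mem_cons_self, fun X A f _ hB => ?_⟩, ?_, ?_⟩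
    · exact cl_holds.2 hB
    · simp only [List.length_cons]; omega
    · intro B' hB'
      rw [List.mem_cons] at hB'
      rcases hB' with rfl | hB'
      · exact List.mem_cons_self
      · exact List.mem_cons_of_mem _ (hmem B' hB')

/-- The sets `A j` are disjoint. -/
theorem disj {k h : ℕ} {X : Set (Finset (Fin (k * h)))} {A : Fin k → Finset (Fin (k * h))}
    {f : Fin (k * h) → ZMod p} (hv : Valid h X A f) {i j : Fin k} (hij : i ≠ j) :
    Disjoint (A i) (A j) := by
  classical
  rw [Finset.disjoint_left]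
  intro v hi hj
  have hcard : ∀ j, (A j).card = h := fun j => hv.1 _ (hv.2.1 j)
  -- the other sets together with `A i` cover; count
  have h1 : (univ : Finset (Fin (k * h))) ⊆ (univ.erase j).biUnion A ∪ (A j).erase v := by
    intro w _
    obtain ⟨l, hl⟩ := hv.2.2.1 w
    rw [mem_union, mem_biUnion]
    by_cases hlj : l = j
    · by_cases hw : w = v
      · exact Or.inl ⟨i, mem_erase.2 ⟨hij, mem_univ _⟩, hw ▸ hi⟩
      · exact Or.inr (mem_erase.2 ⟨hw, hlj ▸ hl⟩)
    · exact Or.inl ⟨l, mem_erase.2 ⟨hlj, mem_univ _⟩, hl⟩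
  have h2 := card_le_card h1
  have h3 := card_union_le ((univ.erase j).biUnion A) ((A j).erase v)
  have h4 : ((univ.erase j).biUnion A).card ≤ (k - 1) * h := by
    refine card_biUnion_le.trans ?_
    rw [sum_congr rfl fun l _ => hcard l, sum_const, card_erase_of_mem (mem_univ _), card_univ,
      Fintype.card_fin, smul_eq_mul]
  have h5 : ((A j).erase v).card = h - 1 := by rw [card_erase_of_mem hj, hcard]
  have h6 : 0 < h := by rw [← hcard j]; exact card_pos.2 ⟨v, hj⟩
  have h7 : 0 < k := Fin.pos_iff_nonempty.2 ⟨j⟩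
  rw [card_univ, Fintype.card_fin] at h2
  have h8 : (k - 1) * h + h = k * h := by
    rw [← Nat.succ_mul]
    congr 1
    omega
  omega

/-- One set `B`. -/
theorem step_one {k h p : ℕ} {S B : Finset (Fin (k * h))} {v : Fin (k * h)} (hv : v ∈ S) :
    (lR S v [B] : Line k (k * h) p).Follows h (lM B) (lT (S \ B)) := by
  classical
  intro X A f hval hM hT
  rw [lM, cl_holds] at hM
  rw [lT, cl_holds] at hT
  rw [lR, cl_holds]
  rintro ⟨⟨J, hJ⟩, B', hB', hvB, j, rfl⟩
  rw [List.mem_singleton] at hB'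
  subst hB'
  obtain ⟨i, hi, hvi⟩ := (hJ v).1 hv
  have hij : i = j := by
    by_contra hne
    exact (Finset.disjoint_left.1 (disj hval hne)) hvi hvB
  subst hij
  have hsub : A i ⊆ S := fun w hw => (hJ w).2 ⟨i, hi, hw⟩
  have h1 : ∑ w ∈ S \ A i, f w = 0 := by
    apply hT
    refine ⟨J.erase i, fun w => ?_⟩
    rw [mem_sdiff, hJ]
    constructor
    · rintro ⟨⟨l, hl, hw⟩, hwi⟩
      exact ⟨l, mem_erase.2 ⟨fun h' => hwi (h' ▸ hw), hl⟩, hw⟩
    · rintro ⟨l, hl, hw⟩
      rw [mem_erase] at hl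
      exact ⟨⟨l, hl.2, hw⟩, fun hwi => (Finset.disjoint_left.1 (disj hval hl.1)) hw hwi⟩
  rw [← sum_sdiff hsub, h1, hM (hval.2.1 i), add_zero]

theorem step_list {k h p : ℕ} (hk : 0 < k) {S : Finset (Fin (k * h))} {v : Fin (k * h)}
    (hv : v ∈ S) {l : List (Line k (k * h) p)} (hl : Derivation h l)
    (hM : ∀ B : Finset (Fin (k * h)), B.card = h → lM B ∈ l)
    (hT : ∀ S' : Finset (Fin (k * h)), S' ⊂ S → lT S' ∈ l)
    (Bs : List (Finset (Fin (k * h)))) (hBs : ∀ B ∈ Bs, B.card = h) :
    ∃ l' : List (Line k (k * h) p), Derivation h l' ∧ l ⊆ l' ∧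
      l'.length ≤ l.length + (1 + 2 * Bs.length) ∧ lR S v Bs ∈ l' := by
  classical
  induction Bs with
  | nil =>
    obtain ⟨B, -, hB⟩ := exists_subset_card_eq (s := (univ : Finset (Fin (k * h)))) (n := h) (by
      rw [card_univ, Fintype.card_fin]; exact Nat.le_mul_of_pos_left h hk)
    refine ⟨lR S v [] :: l, hl.ax ⟨B, hB, fun X A f _ _ => ?_⟩, List.subset_cons_self _ _,
      by simp, List.mem_cons_self⟩
    rw [lR, cl_holds]
    rintro ⟨-, B', hB', -⟩
    simp at hB'
  | cons B Bs ih =>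
    obtain ⟨l', hl', hsub, hlen, hmem⟩ := ih fun B hB => hBs B (List.mem_cons_of_mem _ hB)
    have hBh : B.card = h := hBs B List.mem_cons_self
    by_cases hvB : v ∈ B
    · have hss : S \ B ⊂ S := by
        refine ⟨sdiff_subset, fun h' => ?_⟩
        exact (mem_sdiff.1 (h' hv)).2 hvB
      have hl1 : Derivation h (lR S v [B] :: l') :=
        hl'.infer (hsub (hM B hBh)) (hsub (hT _ hss)) (step_one hv)
      refine ⟨lR S v (B :: Bs) :: lR S v [B] :: l', hl1.infer (L₁ := lR S v [B])
        (L₂ := lR S v Bs) List.mem_cons_self (List.mem_cons_of_mem _ hmem) ?_, ?_, ?_,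
        List.mem_cons_self⟩
      · intro X A f _ h1 h2
        rw [lR, cl_holds] at h1 h2 ⊢
        rintro ⟨hu, B', hB', hvB', hj⟩
        rw [List.mem_cons] at hB'
        rcases hB' with rfl | hB'
        · exact h1 ⟨hu, B', List.mem_singleton_self _, hvB', hj⟩
        · exact h2 ⟨hu, B', hB', hvB', hj⟩
      · exact fun L hL => List.mem_cons_of_mem _ (List.mem_cons_of_mem _ (hsub hL))
      · simp only [List.length_cons]; omega
    · refine ⟨lR S v (B :: Bs) :: l', hl'.infer hmem hmem ?_, ?_, ?_, List.mem_cons_self⟩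
      · intro X A f _ h1 _
        rw [lR, cl_holds] at h1 ⊢
        rintro ⟨hu, B', hB', hvB', hj⟩
        rw [List.mem_cons] at hB'
        rcases hB' with rfl | hB'
        · exact absurd hvB' hvB
        · exact h1 ⟨hu, B', hB', hvB', hj⟩
      · exact fun L hL => List.mem_cons_of_mem _ (hsub hL)
      · simp only [List.length_cons]; omega

theorem step_set {k h p : ℕ} (hk : 0 < k) {S : Finset (Fin (k * h))}
    {l : List (Line k (k * h) p)} (hl : Derivation h l)
    (hM : ∀ B : Finset (Fin (k * h)), B.card = h → lM B ∈ l)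
    (hT : ∀ S' : Finset (Fin (k * h)), S' ⊂ S → lT S' ∈ l) :
    ∃ l' : List (Line k (k * h) p), Derivation h l' ∧ l ⊆ l' ∧
      l'.length ≤ l.length + (2 + 2 * (k * h).choose h) ∧ lT S ∈ l' := by
  classical
  rcases S.eq_empty_or_nonempty with rfl | ⟨v, hv⟩
  · obtain ⟨B, -, hB⟩ := exists_subset_card_eq (s := (univ : Finset (Fin (k * h)))) (n := h) (by
      rw [card_univ, Fintype.card_fin]; exact Nat.le_mul_of_pos_left h hk)
    refine ⟨lT ∅ :: l, hl.ax ⟨B, hB, fun X A f _ _ => ?_⟩, List.subset_cons_self _ _,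
      by simp only [List.length_cons]; omega, List.mem_cons_self⟩
    rw [lT, cl_holds]
    simp
  · obtain ⟨l', hl', hsub, hlen, hmem⟩ := step_list hk hv hl hM hT
      ((univ : Finset (Fin (k * h))).powersetCard h).toList (by
        intro B hB
        rw [mem_toList, mem_powersetCard] at hB
        exact hB.2)
    rw [length_toList, card_powersetCard, card_univ, Fintype.card_fin] at hlen
    refine ⟨lT S :: l', hl'.infer hmem hmem ?_, fun L hL => List.mem_cons_of_mem _ (hsub hL),
      by simp only [List.length_cons]; omega, List.mem_cons_self⟩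
    intro X A f hval h1 _
    rw [lR, cl_holds] at h1
    rw [lT, cl_holds]
    intro hu
    apply h1
    refine ⟨hu, ?_⟩
    obtain ⟨J, hJ⟩ := hu
    obtain ⟨j, -, hvj⟩ := (hJ v).1 hv
    refine ⟨A j, ?_, hvj, j, rfl⟩
    rw [mem_toList, mem_powersetCard]
    exact ⟨subset_univ _, hval.1 _ (hval.2.1 j)⟩

theorem step_all {k h p : ℕ} (hk : 0 < k) (N : ℕ) : ∀ D : Finset (Finset (Fin (k * h))),
    D.card = N → (∀ S ∈ D, ∀ S' ⊆ S, S' ∈ D) →
    ∃ l : List (Line k (k * h) p), Derivation h l ∧
      l.length ≤ (k * h).choose h + N * (2 + 2 * (k * h).choose h) ∧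
      (∀ B : Finset (Fin (k * h)), B.card = h → lM B ∈ l) ∧ ∀ S ∈ D, lT S ∈ l := by
  classical
  induction N with
  | zero =>
    intro D hD _
    rw [card_eq_zero] at hD
    subst hD
    obtain ⟨l, hl, hlen, hmem⟩ := exists_base (k := k) (p := p)
      ((univ : Finset (Fin (k * h))).powersetCard h).toList (by
        intro B hB
        rw [mem_toList, mem_powersetCard] at hB
        exact hB.2)
    rw [length_toList, card_powersetCard, card_univ, Fintype.card_fin] at hlen
    refine ⟨l, hl, by omega, fun B hB => hmem B ?_, by simp⟩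
    rw [mem_toList, mem_powersetCard]
    exact ⟨subset_univ _, hB⟩
  | succ N ih =>
    intro D hD hlow
    obtain ⟨S, hS, hmax⟩ := exists_max_image D card (card_pos.1 (by omega))
    obtain ⟨l, hl, hlen, hM, hT⟩ := ih (D.erase S) (by rw [card_erase_of_mem hS]; omega) (by
      intro S₁ hS₁ S' hS'
      rw [mem_erase] at hS₁ ⊢
      refine ⟨?_, hlow S₁ hS₁.2 S' hS'⟩
      rintro rfl
      exact hS₁.1 (Finset.eq_of_subset_of_card_le hS' (hmax S₁ hS₁.2)).symm)
    obtain ⟨l', hl', hsub, hlen', hmem⟩ := step_set hk (S := S) hl hM (by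
      intro S' hS'
      exact hT S' (mem_erase.2 ⟨hS'.ne, hlow S hS S' hS'.subset⟩))
    refine ⟨l', hl', ?_, fun B hB => hsub (hM B hB), fun S' hS' => ?_⟩
    · rw [Nat.succ_mul]; omega
    · by_cases hne : S' = S
      · rw [hne]; exact hmem
      · exact hsub (hT S' (mem_erase.2 ⟨hne, hS'⟩))

theorem upper {k : ℕ} (hk : 0 < k) (h p : ℕ) :
    HasRefutation k h p (2 ^ (k * h) * (5 * (k * h).choose h)) := by
  classical
  obtain ⟨l, hl, hlen, -, hT⟩ := step_all (h := h) (p := p) hk _ univ rfl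
    (fun _ _ _ _ => mem_univ _)
  refine ⟨l, hl, ?_, lT univ, hT univ (mem_univ _), fun X A f hval hL => ?_⟩
  · rw [card_univ, Fintype.card_finset, Fintype.card_fin] at hlen
    have h1 : 0 < (k * h).choose h := Nat.choose_pos (Nat.le_mul_of_pos_left h hk)
    have h2 : 0 < 2 ^ (k * h) := by positivity
    nlinarith
  · rw [lT, cl_holds] at hL
    apply hval.2.2.2
    apply hL
    refine ⟨univ, fun v => ?_⟩
    obtain ⟨j, hj⟩ := hval.2.2.1 v
    simp only [mem_univ, true_and, true_iff]
    exact ⟨j, hj⟩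

end SplitLines
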